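import Pool.Agent.J6H98.Chiral.Data

set_option autoImplicit false

namespace Pool.Agent.J6H98.Chiral

theorem ck0 : chkRange (chkE look par rotg rotw 36864 2) 0 512 = true := by decide +kernel
theorem ck1 : chkRange (chkE look par rotg rotw 36864 2) 512 512 = true := by decide +kernel
theorem ck2 : chkRange (chkE look par rotg rotw 36864 2) 1024 512 = true := by decide +kernel
theorem ck3 : chkRange (chkE look par rotg rotw 36864 2) 1536 512 = true := by decide +kernel
theorem ck4 : chkRange (chkE look par rotg rotw 36864 2) 2048 512 = true := by decide +kernel
theorem ck5 : chkRange (chkE look par rotg rotw 36864 2) 2560 512 = true := by decide +kernel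
theorem ck6 : chkRange (chkE look par rotg rotw 36864 2) 3072 512 = true := by decide +kernel
theorem ck7 : chkRange (chkE look par rotg rotw 36864 2) 3584 512 = true := by decide +kernel
theorem ck8 : chkRange (chkE look par rotg rotw 36864 2) 4096 512 = true := by decide +kernel
theorem ck9 : chkRange (chkE look par rotg rotw 36864 2) 4608 512 = true := by decide +kernel
theorem ck10 : chkRange (chkE look par rotg rotw 36864 2) 5120 512 = true := by decide +kernel
theorem ck11 : chkRange (chkE look par rotg rotw 36864 2) 5632 512 = true := by decide +kernel
theorem ck12 : chkRange (chkE look par rotg rotw 36864 2) 6144 512 = true := by decide +kernel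
theorem ck13 : chkRange (chkE look par rotg rotw 36864 2) 6656 512 = true := by decide +kernel
theorem ck14 : chkRange (chkE look par rotg rotw 36864 2) 7168 512 = true := by decide +kernel
theorem ck15 : chkRange (chkE look par rotg rotw 36864 2) 7680 512 = true := by decide +kernel
theorem ck16 : chkRange (chkE look par rotg rotw 36864 2) 8192 512 = true := by decide +kernel
theorem ck17 : chkRange (chkE look par rotg rotw 36864 2) 8704 512 = true := by decide +kernel

end Pool.Agent.J6H98.Chiral
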