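import Pool.Agent.J6H98.Chiral.Data

set_option autoImplicit false

namespace Pool.Agent.J6H98.Chiral

theorem ck18 : chkRange (chkE look par rotg rotw 36864 2) 9216 512 = true := by decide +kernel
theorem ck19 : chkRange (chkE look par rotg rotw 36864 2) 9728 512 = true := by decide +kernel
theorem ck20 : chkRange (chkE look par rotg rotw 36864 2) 10240 512 = true := by decide +kernel
theorem ck21 : chkRange (chkE look par rotg rotw 36864 2) 10752 512 = true := by decide +kernel
theorem ck22 : chkRange (chkE look par rotg rotw 36864 2) 11264 512 = true := by decide +kernel
theorem ck23 : chkRange (chkE look par rotg rotw 36864 2) 11776 512 = true := by decide +kernel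
theorem ck24 : chkRange (chkE look par rotg rotw 36864 2) 12288 512 = true := by decide +kernel
theorem ck25 : chkRange (chkE look par rotg rotw 36864 2) 12800 512 = true := by decide +kernel
theorem ck26 : chkRange (chkE look par rotg rotw 36864 2) 13312 512 = true := by decide +kernel
theorem ck27 : chkRange (chkE look par rotg rotw 36864 2) 13824 512 = true := by decide +kernel
theorem ck28 : chkRange (chkE look par rotg rotw 36864 2) 14336 512 = true := by decide +kernel
theorem ck29 : chkRange (chkE look par rotg rotw 36864 2) 14848 512 = true := by decide +kernel
theorem ck30 : chkRange (chkE look par rotg rotw 36864 2) 15360 512 = true := by decide +kernel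
theorem ck31 : chkRange (chkE look par rotg rotw 36864 2) 15872 512 = true := by decide +kernel
theorem ck32 : chkRange (chkE look par rotg rotw 36864 2) 16384 512 = true := by decide +kernel
theorem ck33 : chkRange (chkE look par rotg rotw 36864 2) 16896 512 = true := by decide +kernel
theorem ck34 : chkRange (chkE look par rotg rotw 36864 2) 17408 512 = true := by decide +kernel
theorem ck35 : chkRange (chkE look par rotg rotw 36864 2) 17920 512 = true := by decide +kernel

end Pool.Agent.J6H98.Chiral
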