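import Pool.Agent.J6H98.Chiral.Data

set_option autoImplicit false

namespace Pool.Agent.J6H98.Chiral

theorem ck36 : chkRange (chkE look par rotg rotw 36864 2) 18432 512 = true := by decide +kernel
theorem ck37 : chkRange (chkE look par rotg rotw 36864 2) 18944 512 = true := by decide +kernel
theorem ck38 : chkRange (chkE look par rotg rotw 36864 2) 19456 512 = true := by decide +kernel
theorem ck39 : chkRange (chkE look par rotg rotw 36864 2) 19968 512 = true := by decide +kernel
theorem ck40 : chkRange (chkE look par rotg rotw 36864 2) 20480 512 = true := by decide +kernel
theorem ck41 : chkRange (chkE look par rotg rotw 36864 2) 20992 512 = true := by decide +kernel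
theorem ck42 : chkRange (chkE look par rotg rotw 36864 2) 21504 512 = true := by decide +kernel
theorem ck43 : chkRange (chkE look par rotg rotw 36864 2) 22016 512 = true := by decide +kernel
theorem ck44 : chkRange (chkE look par rotg rotw 36864 2) 22528 512 = true := by decide +kernel
theorem ck45 : chkRange (chkE look par rotg rotw 36864 2) 23040 512 = true := by decide +kernel
theorem ck46 : chkRange (chkE look par rotg rotw 36864 2) 23552 512 = true := by decide +kernel
theorem ck47 : chkRange (chkE look par rotg rotw 36864 2) 24064 512 = true := by decide +kernel
theorem ck48 : chkRange (chkE look par rotg rotw 36864 2) 24576 512 = true := by decide +kernel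
theorem ck49 : chkRange (chkE look par rotg rotw 36864 2) 25088 512 = true := by decide +kernel
theorem ck50 : chkRange (chkE look par rotg rotw 36864 2) 25600 512 = true := by decide +kernel
theorem ck51 : chkRange (chkE look par rotg rotw 36864 2) 26112 512 = true := by decide +kernel
theorem ck52 : chkRange (chkE look par rotg rotw 36864 2) 26624 512 = true := by decide +kernel
theorem ck53 : chkRange (chkE look par rotg rotw 36864 2) 27136 512 = true := by decide +kernel

end Pool.Agent.J6H98.Chiral
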