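import Pool.Agent.J6H98.Chiral.Data

set_option autoImplicit false

namespace Pool.Agent.J6H98.Chiral

theorem ck54 : chkRange (chkE look par rotg rotw 36864 2) 27648 512 = true := by decide +kernel
theorem ck55 : chkRange (chkE look par rotg rotw 36864 2) 28160 512 = true := by decide +kernel
theorem ck56 : chkRange (chkE look par rotg rotw 36864 2) 28672 512 = true := by decide +kernel
theorem ck57 : chkRange (chkE look par rotg rotw 36864 2) 29184 512 = true := by decide +kernel
theorem ck58 : chkRange (chkE look par rotg rotw 36864 2) 29696 512 = true := by decide +kernel
theorem ck59 : chkRange (chkE look par rotg rotw 36864 2) 30208 512 = true := by decide +kernel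
theorem ck60 : chkRange (chkE look par rotg rotw 36864 2) 30720 512 = true := by decide +kernel
theorem ck61 : chkRange (chkE look par rotg rotw 36864 2) 31232 512 = true := by decide +kernel
theorem ck62 : chkRange (chkE look par rotg rotw 36864 2) 31744 512 = true := by decide +kernel
theorem ck63 : chkRange (chkE look par rotg rotw 36864 2) 32256 512 = true := by decide +kernel
theorem ck64 : chkRange (chkE look par rotg rotw 36864 2) 32768 512 = true := by decide +kernel
theorem ck65 : chkRange (chkE look par rotg rotw 36864 2) 33280 512 = true := by decide +kernel
theorem ck66 : chkRange (chkE look par rotg rotw 36864 2) 33792 512 = true := by decide +kernel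
theorem ck67 : chkRange (chkE look par rotg rotw 36864 2) 34304 512 = true := by decide +kernel
theorem ck68 : chkRange (chkE look par rotg rotw 36864 2) 34816 512 = true := by decide +kernel
theorem ck69 : chkRange (chkE look par rotg rotw 36864 2) 35328 512 = true := by decide +kernel
theorem ck70 : chkRange (chkE look par rotg rotw 36864 2) 35840 512 = true := by decide +kernel
theorem ck71 : chkRange (chkE look par rotg rotw 36864 2) 36352 512 = true := by decide +kernel

end Pool.Agent.J6H98.Chiral
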