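import Mathlib

/-!
A small verified checker for coset tables.

`look g i` packs, for generator `g` and point `i`, the target point (16 bits), a rank (6 bits)
and a justification code (rest).  `chkE` is the local check of one entry; `sound` turns a
fully checked table into genuine equalities for any interpretation of the generators as
self-maps of a type which satisfies the rotated relators.
-/

set_option autoImplicit false

namespace Pool.Agent.J6H98.Chiral

/-- Binary trees of natural numbers, used as lookup tables. -/
inductive Tr : Type
  | L (v : Nat) : Tr
  | N (l r : Tr) : Tr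

/-- Lookup in a tree: low bit first. -/
noncomputable def Tr.get (t : Tr) : Nat → Nat :=
  Tr.rec (motive := fun _ => Nat → Nat) (fun v _ => v)
    (fun _ _ ihl ihr i =>
      Bool.rec (ihr (Nat.shiftRight i 1)) (ihl (Nat.shiftRight i 1)) (Nat.beq (Nat.land i 1) 0)) t

/-- target point of an entry -/
def tgt (e : Nat) : Nat := Nat.land e 65535
/-- rank of an entry -/
def rk (e : Nat) : Nat := Nat.land (Nat.shiftRight e 16) 63
/-- justification code of an entry -/
def js (e : Nat) : Nat := Nat.shiftRight e 22

/-- run a word of generators from a point of a type -/
def run {X : Type*} (f : Nat → X → X) : List Nat → X → X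
  | [], x => x
  | g :: w, x => run f w (f g x)

/-- Check that the word `w` read from `x` in the table ends in `y`, using only entries of rank
less than `r`. -/
noncomputable def pathOK (look : Nat → Nat → Nat) (r : Nat) (w : List Nat) : Nat → Nat → Bool :=
  List.rec (motive := fun _ => Nat → Nat → Bool) (fun x y => Nat.beq x y)
    (fun g _ ih x y =>
      Bool.rec false (ih (tgt (look g x)) y) (Nat.blt (rk (look g x)) r)) w

theorem pathOK_nil (look : Nat → Nat → Nat) (r x y : Nat) :
    pathOK look r [] x y = Nat.beq x y := rfl

theorem pathOK_cons (look : Nat → Nat → Nat) (r g : Nat) (w : List Nat) (x y : Nat) :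
    pathOK look r (g :: w) x y =
      Bool.rec false (pathOK look r w (tgt (look g x)) y) (Nat.blt (rk (look g x)) r) := rfl

/-- The generator and remaining word of the `k`-th rotated relator, given as a function. -/
structure Rot where
  g : Nat
  w : List Nat

/-- Check of the entry at generator `g` and point `i`.  `rot k` is the `k`-th rotated relator,
`par` the parent table (`4 * parent + generator`), `m` the number of points. Code 31 marks tree
edges and code 30 the edges at the base point that are assumed. -/
noncomputable def chkE (look : Nat → Nat → Nat) (par : Nat → Nat) (rotg : Nat → Nat)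
    (rotw : Nat → List Nat) (m nb g i : Nat) : Bool :=
  Bool.rec false
    (Bool.rec
      (Bool.rec
        (Bool.rec false
          (pathOK look (rk (look g i)) (rotw (js (look g i))) (tgt (look g i)) i)
          (Nat.beq (rotg (js (look g i))) g))
        (Bool.rec false (Bool.rec false (Nat.beq (tgt (look g i)) 0) (Nat.blt g nb)) (Nat.beq i 0))
        (Nat.beq (js (look g i)) 30))
      (Bool.rec false (Nat.blt i (tgt (look g i)))
        (Nat.beq (par (tgt (look g i))) (Nat.add (Nat.mul 4 i) g)))
      (Nat.beq (js (look g i)) 31))
    (Nat.blt (tgt (look g i)) m)

/-- The statement that entry `(g,i)` passes. -/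
theorem chkE_cases {look : Nat → Nat → Nat} {par rotg : Nat → Nat} {rotw : Nat → List Nat}
    {m nb g i : Nat} (h : chkE look par rotg rotw m nb g i = true) :
    tgt (look g i) < m ∧
      ((js (look g i) = 31 ∧ par (tgt (look g i)) = 4 * i + g ∧ i < tgt (look g i)) ∨
       (i = 0 ∧ g < nb ∧ tgt (look g i) = 0) ∨
       (rotg (js (look g i)) = g ∧
          pathOK look (rk (look g i)) (rotw (js (look g i))) (tgt (look g i)) i = true)) := by
  unfold chkE at h
  generalize hA : Nat.blt (tgt (look g i)) m = A at h
  cases A with
  | false => exact absurd h (by simp)
  | true =>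
    have hA' : tgt (look g i) < m := by simpa [Nat.blt_eq] using hA
    refine ⟨hA', ?_⟩
    generalize hB : Nat.beq (js (look g i)) 31 = B at h
    cases B with
    | true =>
      left
      have hB' : js (look g i) = 31 := Nat.eq_of_beq_eq_true hB
      generalize hC : Nat.beq (par (tgt (look g i))) (Nat.add (Nat.mul 4 i) g) = C at h
      cases C with
      | false => exact absurd h (by simp)
      | true =>
        have hC' : par (tgt (look g i)) = 4 * i + g := Nat.eq_of_beq_eq_true hC
        have : i < tgt (look g i) := by simpa [Nat.blt_eq] using h
        exact ⟨hB', hC', this⟩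
    | false =>
      right
      generalize hD : Nat.beq (js (look g i)) 30 = D at h
      cases D with
      | true =>
        left
        generalize hE : Nat.beq i 0 = E at h
        cases E with
        | false => exact absurd h (by simp)
        | true =>
          generalize hF : Nat.blt g nb = F at h
          cases F with
          | false => exact absurd h (by simp)
          | true =>
            exact ⟨Nat.eq_of_beq_eq_true hE, by simpa [Nat.blt_eq] using hF,
              Nat.eq_of_beq_eq_true h⟩
      | false =>
        right
        generalize hE : Nat.beq (rotg (js (look g i))) g = E at h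
        cases E with
        | false => exact absurd h (by simp)
        | true => exact ⟨Nat.eq_of_beq_eq_true hE, h⟩

section Sound

variable {X : Type*} (f : Nat → X → X) (x0 : X) (look : Nat → Nat → Nat) (par : Nat → Nat)

/-- The point of `X` attached to an index by the spanning tree. -/
noncomputable def pt (n : Nat) : X :=
  if h : n ≠ 0 ∧ par n / 4 < n then f (par n % 4) (pt (par n / 4)) else x0
termination_by n
decreasing_by exact h.2

theorem pt_zero : pt f x0 par 0 = x0 := by
  rw [pt]; simp

theorem pt_tree {n i g : Nat} (hg : g < 4) (hp : par n = 4 * i + g) (hi : i < n) :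
    pt f x0 par n = f g (pt f x0 par i) := by
  have h1 : par n / 4 = i := by omega
  have h2 : par n % 4 = g := by omega
  rw [pt, dif_pos ⟨by omega, by omega⟩, h1, h2]

theorem run_of_path (m r ng : Nat)
    (hv : ∀ g i, g < ng → i < m → tgt (look g i) < m ∧ (rk (look g i) < r →
      f g (pt f x0 par i) = pt f x0 par (tgt (look g i))))
    (w : List Nat) (hw : ∀ g ∈ w, g < ng) (x y : Nat) (hx : x < m)
    (h : pathOK look r w x y = true) : run f w (pt f x0 par x) = pt f x0 par y := by
  induction w generalizing x with
  | nil =>
    rw [pathOK_nil] at h
    have := Nat.eq_of_beq_eq_true h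
    subst this; rfl
  | cons g w ih =>
    rw [pathOK_cons] at h
    generalize hA : Nat.blt (rk (look g x)) r = A at h
    cases A with
    | false => exact absurd h (by simp)
    | true =>
      have hA' : rk (look g x) < r := by simpa [Nat.blt_eq] using hA
      have hg : g < ng := hw g (by simp)
      obtain ⟨h1, h2⟩ := hv g x hg hx
      show run f w (f g (pt f x0 par x)) = _
      rw [h2 hA']
      exact ih (fun g' hg' => hw g' (by simp [hg'])) _ h1 h

/-- Soundness: all table entries are genuine. -/
theorem sound (rotg : Nat → Nat) (rotw : Nat → List Nat) (m nb ng : Nat) (hng : ng ≤ 4)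
    (hbase : ∀ g, g < nb → f g x0 = x0)
    (hrot : ∀ k y, rotg k < ng → f (rotg k) (run f (rotw k) y) = y)
    (hrotw : ∀ k, rotg k < ng → ∀ g ∈ rotw k, g < ng)
    (hchk : ∀ g i, g < ng → i < m → chkE look par rotg rotw m nb g i = true) :
    ∀ g i, g < ng → i < m →
      tgt (look g i) < m ∧ f g (pt f x0 par i) = pt f x0 par (tgt (look g i)) := by
  have key : ∀ r g i, g < ng → i < m → rk (look g i) < r →
      f g (pt f x0 par i) = pt f x0 par (tgt (look g i)) := by
    intro r
    induction r with
    | zero => intro g i _ _ h; exact absurd h (by omega)
    | succ r ih =>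
      intro g i hg hi hr
      obtain ⟨hm, hc⟩ := chkE_cases (hchk g i hg hi)
      rcases hc with ⟨_, h2, h3⟩ | ⟨h1, h2, h3⟩ | ⟨h1, h2⟩
      · exact (pt_tree f x0 par (by omega) h2 h3).symm
      · subst h1
        rw [h3, pt_zero]; exact hbase g h2
      · have hrun := run_of_path f x0 look par m (rk (look g i)) ng
          (fun g' i' hg' hi' => ⟨(chkE_cases (hchk g' i' hg' hi')).1,
            fun hlt => ih g' i' hg' hi' (by omega)⟩) (rotw (js (look g i)))
            (hrotw _ (by rw [h1]; exact hg)) _ _ hm h2
        have := hrot (js (look g i)) (pt f x0 par (tgt (look g i))) (by rw [h1]; exact hg)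
        rw [hrun, h1] at this
        exact this
  intro g i hg hi
  exact ⟨(chkE_cases (hchk g i hg hi)).1, key _ g i hg hi (Nat.lt_succ_self _)⟩

end Sound

/-- Check `n` consecutive points starting at `lo`, for generators `0,1,2`. -/
noncomputable def chkRange (chk : Nat → Nat → Bool) (lo n : Nat) : Bool :=
  Nat.rec true (fun k ih =>
    Bool.rec false (Bool.rec false (Bool.rec false ih (chk 2 (Nat.add lo k)))
      (chk 1 (Nat.add lo k))) (chk 0 (Nat.add lo k))) n

theorem chkRange_spec (chk : Nat → Nat → Bool) (lo n : Nat) (h : chkRange chk lo n = true) :
    ∀ g i, g < 3 → lo ≤ i → i < lo + n → chk g i = true := by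
  induction n with
  | zero => intro g i _ h1 h2; omega
  | succ n ih =>
    have hs : chkRange chk lo (n+1) = Bool.rec false (Bool.rec false (Bool.rec false
      (chkRange chk lo n) (chk 2 (Nat.add lo n))) (chk 1 (Nat.add lo n))) (chk 0 (Nat.add lo n)) :=
      rfl
    rw [hs] at h
    generalize h0 : chk 0 (Nat.add lo n) = A at h
    cases A with
    | false => exact absurd h (by simp)
    | true =>
      generalize h1 : chk 1 (Nat.add lo n) = B at h
      cases B with
      | false => exact absurd h (by simp)
      | true =>
        generalize h2 : chk 2 (Nat.add lo n) = C at h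
        cases C with
        | false => exact absurd h (by simp)
        | true =>
          intro g i hg hl hu
          rcases Nat.lt_or_ge i (lo + n) with hlt | hge
          · exact ih h g i hg hl hlt
          · have : i = lo + n := by omega
            subst this
            interval_cases g
            · exact h0
            · exact h1
            · exact h2

end Pool.Agent.J6H98.Chiral
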