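import Pool.Agent.J6H98.Chiral.Data

set_option autoImplicit false

namespace Pool.Agent.J6H98.Chiral

/-- table of the facet group (80 points), generators 0 and 1 -/
noncomputable def lookF (g i : Nat) : Nat :=
  Nat.land (Nat.shiftRight 0x88008e0040134418027801004b404006bf00013c41802700100464040057f000138e100168c40042304005e3080103e00026801003e106009800400f1010011fc0004c384004a40c00e02180240c20036f80009600400d020800f0c4004af80009400400cc20800e0030049f80009200400c822001efc00048286004c00400c421801ffc00047086008240c00b8c100218c2002cf80008c00400a820800b2430045f80008a00400a420800a0030044f80008800400a3e000217c00043f800081f000107e0001f7c0003f384006ff0000f4c1001c8c20024f8000780040088208008004003bf8000760040084208007003003af8000740040083e0001c7c00039f80006df0000dfe0001a7c00035f8000663080077e00019001001bf80006200400642080050030030f8000600040063e000177c0002ff800059f0000b7e000157c0002bf8000523080057e000140010013082000e00c009fe0001380100120860035f0000984100058010011f800049f000097e000117c00023f800042308003fe00010001000d082000800c007fe0000f801000cf80003bf00007be0000dfc0001cf800033f00006be0000c0010009082000400c005fe0000b8010008f80002bf00005be00009fc00014f800024004001be000088010005f80001ff000043e00006fc0000ef800018004000c2080007c0000bf800013f00002be000040010001f80000df00001fe000028010000f800007f000013e00000fc00002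
    (Nat.add (Nat.mul 54 i) (Nat.mul 27 g))) 134217727

/-- parent table of the facet group -/
noncomputable def parF (i : Nat) : Nat :=
  Nat.land (Nat.shiftRight 0x4d0012c004840118004340105003f400f8003c000e50037400d50034000d10033000cd0032000c90031000bd002d400ad002a000a90029000a50028000a100274009900254008d002200089002100085002000081001f40079001c4006c00190006500180006100174005900144004c001340048001240044001140041000e40034000d40030000c4002d000a4002400094002000084001d00060001400054001100030000d000240004000140000000040000 (Nat.mul 18 i)) 262143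

/-- first letters -/
def rgF : List Nat := [0, 1, 1, 0, 0, 1, 1, 1, 1, 0]

/-- remaining letters -/
def rwF : List (List Nat) := [[0],
  [1, 1, 1],
  [0, 1, 0, 1, 0, 1, 0],
  [1, 0, 1, 0, 1, 0, 1],
  [1, 1, 0, 1, 0, 1, 1, 0, 1, 1, 0, 1, 1, 0, 1, 1, 1],
  [1, 0, 1, 0, 1, 1, 0, 1, 1, 0, 1, 1, 0, 1, 1, 1, 0],
  [0, 1, 1, 0, 1, 1, 0, 1, 1, 1, 0, 1, 1, 0, 1, 0, 1],
  [0, 1, 1, 0, 1, 1, 1, 0, 1, 1, 0, 1, 0, 1, 1, 0, 1],
  [0, 1, 1, 1, 0, 1, 1, 0, 1, 0, 1, 1, 0, 1, 1, 0, 1],
  [1, 1, 1, 0, 1, 1, 0, 1, 0, 1, 1, 0, 1, 1, 0, 1, 1]]

/-- first letter of the rotated relator of a given code -/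
noncomputable def rotgF (k : Nat) : Nat := getL 9 rgF k

/-- rest of the rotated relator -/
noncomputable def rotwF (k : Nat) : List Nat := getL [] rwF k

theorem ckF : chkRange (fun g i => Bool.rec true (chkE lookF parF rotgF rotwF 80 0 g i)
    (Nat.blt g 2)) 0 80 = true := by decide +kernel

end Pool.Agent.J6H98.Chiral
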