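import Pool.Agent.J6H98.Chiral.Chk0
import Pool.Agent.J6H98.Chiral.Chk1
import Pool.Agent.J6H98.Chiral.Chk2
import Pool.Agent.J6H98.Chiral.Chk3
import Pool.Agent.J6H98.Chiral.DataF

/-!
The group on `a, b, c` with `a^4 = b^4 = c^3 = (ab)^2 = (bc)^2 = (abc)^2 = 1` and
`(a⁻¹b)^2 (ab⁻¹)^4 = 1` is finite: the subgroup generated by `a, b` has at most 80 elements and
index at most 36864.
-/

set_option autoImplicit false

namespace Pool.Agent.J6H98.Chiral

theorem getL_eq {A : Type} (d : A) (l : List A) (k : Nat) : getL d l k = l.getD k d := by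
  induction l generalizing k with
  | nil => rfl
  | cons a l ih =>
    cases k with
    | zero => rfl
    | succ k =>
      show getL d l k = _
      rw [ih k]; rfl

/-- The relators as words in the generators `0 = ab`, `1 = b`, `2 = c`. -/
def RL : List (List Nat) :=
  [[0,0],[1,1,1,1],[2,2,2],[1,2,1,2],[0,2,0,2],[1,0,1,0,1,0,1,0],
   [1,0,1,1,0,1,0,1,1,0,1,1,0,1,1,0,1,1]]

theorem rot_all : ∀ k < 27, ∃ R ∈ RL, ∃ n < 20, rw_.getD k [] ++ [rg.getD k 9] = R.rotate n := by
  decide

theorem rotF_all : ∀ k < 10, ∃ R ∈ RL, ∃ n < 20, rwF.getD k [] ++ [rgF.getD k 9] = R.rotate n := by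
  decide

theorem rot_mem : ∀ k < 27, ∀ g ∈ rw_.getD k [], g < 3 := by decide

theorem rotF_mem : ∀ k < 10, ∀ g ∈ rwF.getD k [], g < 2 := by decide

section
variable {G : Type*} [Group G]

/-- interpretation of the generators -/
def gen (t b c : G) : Nat → G
  | 0 => t
  | 1 => b
  | 2 => c
  | _ => 1

/-- value of a word -/
def wd (t b c : G) (w : List Nat) : G := (w.map (gen t b c)).prod

theorem wd_rotate {t b c : G} {w : List Nat} (h : wd t b c w = 1) (n : Nat) :
    wd t b c (w.rotate n) = 1 := by
  unfold wd at *
  rw [List.map_rotate]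
  exact List.prod_rotate_eq_one_of_prod_eq_one h n

theorem wd_rot {t b c : G} (hR : ∀ R ∈ RL, wd t b c R = 1) (k : Nat) (hk : rotg k < 3) :
    wd t b c (rotw k) * gen t b c (rotg k) = 1 := by
  have hk27 : k < 27 := by
    by_contra hcon
    have : rotg k = 9 := by
      unfold rotg
      rw [getL_eq, List.getD_eq_default]
      have : rg.length = 27 := rfl
      omega
    omega
  obtain ⟨R, hRm, n, _, hn⟩ := rot_all k hk27
  have h1 : wd t b c (rotw k ++ [rotg k]) = 1 := by
    unfold rotw rotg
    rw [getL_eq, getL_eq, hn]
    exact wd_rotate (hR R hRm) n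
  simpa [wd] using h1

theorem wd_rotF {t b c : G} (hR : ∀ R ∈ RL, wd t b c R = 1) (k : Nat) (hk : rotgF k < 2) :
    wd t b c (rotwF k) * gen t b c (rotgF k) = 1 := by
  have hk27 : k < 10 := by
    by_contra hcon
    have : rotgF k = 9 := by
      unfold rotgF
      rw [getL_eq, List.getD_eq_default]
      have : rgF.length = 10 := rfl
      omega
    omega
  obtain ⟨R, hRm, n, _, hn⟩ := rotF_all k hk27
  have h1 : wd t b c (rotwF k ++ [rotgF k]) = 1 := by
    unfold rotwF rotgF
    rw [getL_eq, getL_eq, hn]
    exact wd_rotate (hR R hRm) n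
  simpa [wd] using h1

theorem chk_all (g i : Nat) (hg : g < 3) (hi : i < 36864) :
    chkE look par rotg rotw 36864 2 g i = true := by
  have key : ∀ k, k < 72 → chkRange (chkE look par rotg rotw 36864 2) (512 * k) 512 = true := by
    intro k hk
    interval_cases k
    · exact ck0
    · exact ck1
    · exact ck2
    · exact ck3
    · exact ck4
    · exact ck5
    · exact ck6
    · exact ck7
    · exact ck8
    · exact ck9
    · exact ck10
    · exact ck11
    · exact ck12
    · exact ck13
    · exact ck14
    · exact ck15
    · exact ck16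
    · exact ck17
    · exact ck18
    · exact ck19
    · exact ck20
    · exact ck21
    · exact ck22
    · exact ck23
    · exact ck24
    · exact ck25
    · exact ck26
    · exact ck27
    · exact ck28
    · exact ck29
    · exact ck30
    · exact ck31
    · exact ck32
    · exact ck33
    · exact ck34
    · exact ck35
    · exact ck36
    · exact ck37
    · exact ck38
    · exact ck39
    · exact ck40
    · exact ck41
    · exact ck42
    · exact ck43
    · exact ck44
    · exact ck45
    · exact ck46
    · exact ck47
    · exact ck48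
    · exact ck49
    · exact ck50
    · exact ck51
    · exact ck52
    · exact ck53
    · exact ck54
    · exact ck55
    · exact ck56
    · exact ck57
    · exact ck58
    · exact ck59
    · exact ck60
    · exact ck61
    · exact ck62
    · exact ck63
    · exact ck64
    · exact ck65
    · exact ck66
    · exact ck67
    · exact ck68
    · exact ck69
    · exact ck70
    · exact ck71
  exact chkRange_spec _ (512 * (i / 512)) 512 (key (i / 512) (by omega)) g i hg (by omega) (by omega)

theorem chkF_all (g i : Nat) (hg : g < 2) (hi : i < 80) :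
    chkE lookF parF rotgF rotwF 80 0 g i = true := by
  have h := chkRange_spec _ 0 80 ckF g i (by omega) (by omega) (by omega)
  have hb : Nat.blt g 2 = true := by simpa [Nat.blt_eq] using hg
  simp only [hb] at h
  exact h

/-- The subgroup generated by `t` and `b` is finite. -/
theorem finite_facet {t b c : G} (hR : ∀ R ∈ RL, wd t b c R = 1) (ht : t * t = 1)
    (hb : b * b * b * b = 1) : Finite (Subgroup.closure {t, b} : Subgroup G) := by
  set f : Nat → G → G := fun g x => x * gen t b c g with hf
  have hrun : ∀ w x, run f w x = x * wd t b c w := by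
    intro w
    induction w with
    | nil => intro x; simp [run, wd]
    | cons g w ih =>
      intro x
      show run f w (x * gen t b c g) = _
      rw [ih]; simp [wd, mul_assoc]
  have hs := sound f (1 : G) lookF parF rotgF rotwF 80 0 2 (by norm_num)
    (fun g hg => absurd hg (by omega))
    (fun k y hk => by
      rw [hrun]
      show y * wd t b c (rotwF k) * gen t b c (rotgF k) = y
      rw [mul_assoc, wd_rotF hR k hk, mul_one])
    (fun k hk g hg => by
      have hk10 : k < 10 := by
        by_contra hcon
        have : rotgF k = 9 := by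
          unfold rotgF
          rw [getL_eq, List.getD_eq_default]
          have : rgF.length = 10 := rfl
          omega
        omega
      unfold rotwF at hg
      rw [getL_eq] at hg
      exact rotF_mem k hk10 g hg)
    chkF_all
  set S : Set G := (fun i => pt f (1 : G) parF i) '' (Set.Iio 80) with hS
  have hfin : S.Finite := (Set.finite_Iio 80).image _
  have h1 : (1 : G) ∈ S := ⟨0, by simp, pt_zero _ _ _⟩
  have hmul : ∀ g, g < 2 → ∀ x ∈ S, x * gen t b c g ∈ S := by
    rintro g hg x ⟨i, hi, rfl⟩
    obtain ⟨h2, h3⟩ := hs g i hg hi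
    exact ⟨_, h2, h3.symm⟩
  have hle : ((Subgroup.closure {t, b} : Subgroup G) : Set G) ⊆ S := by
    intro x hx
    have : ∀ x ∈ Subgroup.closure ({t, b} : Set G), ∀ y ∈ S, y * x ∈ S := by
      intro x hx
      induction hx using Subgroup.closure_induction with
      | mem x hx =>
        intro y hy
        rcases hx with rfl | hx
        · exact hmul 0 (by norm_num) y hy
        · rw [Set.mem_singleton_iff] at hx
          subst hx
          exact hmul 1 (by norm_num) y hy
      | one => intro y hy; simpa using hy
      | mul x z _ _ h1 h2 => intro y hy; rw [← mul_assoc]; exact h2 _ (h1 _ hy)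
      | inv x _ ih =>
        -- right multiplication by `x` is an injective self-map of the finite set `S`
        intro y hy
        haveI : Finite S := hfin.to_subtype
        have hsurj : Function.Surjective (fun y : S => (⟨y.1 * x, ih y.1 y.2⟩ : S)) :=
          Finite.surjective_of_injective (fun y z h => Subtype.ext (by
            have := congrArg Subtype.val h
            exact mul_right_cancel this))
        obtain ⟨z, hz⟩ := hsurj ⟨y, hy⟩
        have hzy : z.1 * x = y := congrArg Subtype.val hz
        have : y * x⁻¹ = z := by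
          rw [← hzy]; simp
        rw [this]; exact z.2
    have := this x hx 1 h1
    simpa using this
  exact (hfin.subset hle).to_subtype

/-- The group is finite. -/
theorem finite_group {t b c : G} (hR : ∀ R ∈ RL, wd t b c R = 1) (ht : t * t = 1)
    (hb : b * b * b * b = 1) (htop : Subgroup.closure ({t, b, c} : Set G) = ⊤) : Finite G := by
  haveI hH : Finite (Subgroup.closure {t, b} : Subgroup G) := finite_facet hR ht hb
  set H : Subgroup G := Subgroup.closure {t, b} with hHdef
  set x0 : G ⧸ H := ((1 : G) : G ⧸ H) with hx0
  set f : Nat → G ⧸ H → G ⧸ H := fun g x => (gen t b c g)⁻¹ • x with hf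
  have hrun : ∀ w x, run f w x = (wd t b c w)⁻¹ • x := by
    intro w
    induction w with
    | nil => intro x; simp [run, wd]
    | cons g w ih =>
      intro x
      show run f w ((gen t b c g)⁻¹ • x) = _
      rw [ih, smul_smul]; simp [wd]
  have hs := sound f x0 look par rotg rotw 36864 2 3 (by norm_num)
    (fun g hg => by
      show (gen t b c g)⁻¹ • ((1 : G) : G ⧸ H) = ((1 : G) : G ⧸ H)
      rw [MulAction.Quotient.smul_coe, QuotientGroup.eq, smul_eq_mul, mul_one, mul_one, inv_inv]
      interval_cases g
      · exact Subgroup.subset_closure (by simp [gen])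
      · exact Subgroup.subset_closure (by simp [gen]))
    (fun k y hk => by
      rw [hrun]
      show (gen t b c (rotg k))⁻¹ • (wd t b c (rotw k))⁻¹ • y = y
      rw [smul_smul, ← mul_inv_rev, wd_rot hR k hk, inv_one, one_smul])
    (fun k hk g hg => by
      have hk27 : k < 27 := by
        by_contra hcon
        have : rotg k = 9 := by
          unfold rotg
          rw [getL_eq, List.getD_eq_default]
          have : rg.length = 27 := rfl
          omega
        omega
      unfold rotw at hg
      rw [getL_eq] at hg
      exact rot_mem k hk27 g hg)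
    chk_all
  set S : Set (G ⧸ H) := (fun i => pt f x0 par i) '' (Set.Iio 36864) with hS
  have hfin : S.Finite := (Set.finite_Iio 36864).image _
  have h1 : x0 ∈ S := ⟨0, by simp, pt_zero _ _ _⟩
  have hmul : ∀ g, g < 3 → ∀ x ∈ S, (gen t b c g)⁻¹ • x ∈ S := by
    rintro g hg x ⟨i, hi, rfl⟩
    obtain ⟨h2, h3⟩ := hs g i hg hi
    exact ⟨_, h2, h3.symm⟩
  haveI : Finite S := hfin.to_subtype
  have hinv : ∀ g : G, (∀ x ∈ S, g⁻¹ • x ∈ S) → ∀ x ∈ S, g • x ∈ S := by
    intro g hg x hx
    have hsurj : Function.Surjective (fun y : S => (⟨g⁻¹ • y.1, hg y.1 y.2⟩ : S)) :=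
      Finite.surjective_of_injective (fun y z h => Subtype.ext (by
        have := congrArg Subtype.val h
        exact (MulAction.injective g⁻¹) this))
    obtain ⟨z, hz⟩ := hsurj ⟨x, hx⟩
    have hzy : g⁻¹ • z.1 = x := congrArg Subtype.val hz
    have : g • x = z := by rw [← hzy]; simp
    rw [this]; exact z.2
  have hcl : ∀ g ∈ Subgroup.closure ({t, b, c} : Set G), ∀ x ∈ S, g • x ∈ S := by
    intro g hg
    induction hg using Subgroup.closure_induction with
    | mem g hg =>
      apply hinv
      rcases hg with rfl | rfl | hg
      · exact hmul 0 (by norm_num)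
      · exact hmul 1 (by norm_num)
      · rw [Set.mem_singleton_iff] at hg
        subst hg
        exact hmul 2 (by norm_num)
    | one => intro x hx; simpa using hx
    | mul g h _ _ h1 h2 => intro x hx; rw [mul_smul]; exact h1 _ (h2 _ hx)
    | inv g _ ih =>
      apply hinv
      simpa using ih
  have huniv : ∀ x : G ⧸ H, x ∈ S := by
    intro x
    induction x using QuotientGroup.induction_on with
    | H g =>
      have := hcl g (by rw [htop]; exact Subgroup.mem_top g) x0 h1
      rw [hx0, MulAction.Quotient.smul_coe, smul_eq_mul, mul_one] at this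
      exact this
  haveI : Finite (G ⧸ H) := by
    have : (Set.univ : Set (G ⧸ H)).Finite := hfin.subset (fun x _ => huniv x)
    exact Set.finite_univ_iff.mp this
  exact Finite.of_equiv _ (Subgroup.groupEquivQuotientProdSubgroup (s := H)).symm

/-- The group in terms of the original generators. -/
theorem finite_of_relations {a b c : G} (ha : a ^ 4 = 1) (hb : b ^ 4 = 1) (hc : c ^ 3 = 1)
    (hab : (a * b) ^ 2 = 1) (hbc : (b * c) ^ 2 = 1) (habc : (a * b * c) ^ 2 = 1)
    (hL : (a⁻¹ * b) ^ 2 * (a * b⁻¹) ^ 4 = 1)
    (htop : Subgroup.closure ({a, b, c} : Set G) = ⊤) : Finite G := by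
  have ht : (a * b) * (a * b) = 1 := by rw [← pow_two]; exact hab
  have hb4 : b * b * b * b = 1 := by
    have := hb
    simpa [pow_succ] using this
  have hbi : b⁻¹ = b * b * b := by
    rw [inv_eq_iff_mul_eq_one]; simpa [mul_assoc] using hb4
  have hai : a⁻¹ = b * (a * b) := by
    rw [inv_eq_iff_mul_eq_one]; simpa [mul_assoc] using ht
  have haeq : a = (a * b) * (b * b * b) := by
    rw [← hbi]; simp
  have e1 : b * (a * b) * (b * (a * b)) * (b * (a * b)) * (b * (a * b)) = 1 := by
    rw [← hai]
    have : (a⁻¹) ^ 4 = 1 := by rw [inv_pow, ha, inv_one]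
    simpa [pow_succ] using this
  have e2 : (a⁻¹ * b) = b * (a * b) * b := by rw [hai]
  have e3 : (a * b⁻¹) = (a * b) * (b * b) := by
    rw [hbi]; simp [mul_assoc]
  rw [e2, e3] at hL
  apply finite_group (t := a * b) (b := b) (c := c)
  · intro R hR
    simp only [RL, List.mem_cons, List.not_mem_nil, or_false] at hR
    rcases hR with rfl | rfl | rfl | rfl | rfl | rfl | rfl
    · simpa [wd, gen, mul_assoc] using ht
    · simpa [wd, gen, mul_assoc] using hb4
    · simpa [wd, gen, mul_assoc, pow_succ] using hc
    · simpa [wd, gen, mul_assoc, pow_succ] using hbc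
    · simpa [wd, gen, mul_assoc, pow_succ] using habc
    · simpa [wd, gen, mul_assoc] using e1
    · simpa [wd, gen, mul_assoc, pow_succ] using hL
  · exact ht
  · exact hb4
  · rw [eq_top_iff, ← htop, Subgroup.closure_le]
    intro x hx
    have hbm : b ∈ Subgroup.closure ({a * b, b, c} : Set G) := Subgroup.subset_closure (by simp)
    rcases hx with rfl | rfl | hx
    · have h1 : x * b ∈ Subgroup.closure ({x * b, b, c} : Set G) :=
        Subgroup.subset_closure (by simp)
      have := mul_mem h1 (inv_mem hbm)
      simpa using this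
    · exact hbm
    · rw [Set.mem_singleton_iff] at hx
      subst hx
      exact Subgroup.subset_closure (by simp)

end

end Pool.Agent.J6H98.Chiral
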